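import Mathlib

/-! Definitions used by the statement: translation surfaces, straight line flows, area measure,
weak mixing, weak illumination by circles. -/

open MeasureTheory Set Filter Topology

namespace Pool.Agent.MP_b29402_an

/-- A translation structure on `X`: a finite set of cone points, an atlas of flat charts covering
exactly the other points, whose transition maps are locally translations, and at every cone point
a chart `φ` in which the flat charts are locally `φ ^ k + c` (cone angle `2 π k`, `k ≥ 1`). -/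
structure TransSurf (X : Type*) [TopologicalSpace X] where
  sing : Finset X
  atlas : Set (OpenPartialHomeomorph X ℂ)
  cover : ∀ x, x ∉ sing ↔ ∃ e ∈ atlas, x ∈ e.source
  trans : ∀ e ∈ atlas, ∀ e' ∈ atlas, ∀ x ∈ e.source ∩ e'.source,
    ∃ c : ℂ, ∀ᶠ y in 𝓝 x, e' y = e y + c
  cone : ∀ s ∈ sing, ∃ (k : ℕ) (φ : OpenPartialHomeomorph X ℂ), 1 ≤ k ∧ s ∈ φ.source ∧ φ s = 0 ∧
    ∀ x ∈ φ.source, x ≠ s → ∃ e ∈ atlas, x ∈ e.source ∧ ∃ c : ℂ, ∀ᶠ y in 𝓝 x, e y = φ y ^ k + c

variable {X : Type*}

/-- `γ` moves on the time set `I` along a straight line with constant velocity `v` (read in the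
flat charts; in particular it avoids the cone points). -/
def TransSurf.Straight [TopologicalSpace X] (S : TransSurf X) (v : ℂ) (γ : ℝ → X) (I : Set ℝ) :
    Prop :=
  ∀ t ∈ I, ∃ e ∈ S.atlas, ∀ᶠ s in 𝓝[I] t,
    γ s ∈ e.source ∧ e (γ s) = e (γ t) + ((s - t : ℝ) : ℂ) * v

/-- The unit vector making angle `2 π θ` with the vertical direction `i`. -/
noncomputable def dir (θ : ℝ) : ℂ := Complex.I * Complex.exp (2 * Real.pi * θ * Complex.I)

open Classical in
/-- The straight line flow in direction `2 π θ` at time `t`: the end point of the straight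
unit speed path from `x` on the time interval between `0` and `t` if there is one, and `x`
otherwise (the orbit meets a cone point). -/
noncomputable def TransSurf.flow [TopologicalSpace X] (S : TransSurf X) (θ t : ℝ) (x : X) : X :=
  if h : ∃ γ : ℝ → X, γ 0 = x ∧ S.Straight (dir θ) γ (uIcc 0 t) then h.choose t else x

/-- `μ` is the flat area measure normalised to total mass one. -/
def TransSurf.IsArea [TopologicalSpace X] [MeasurableSpace X] (S : TransSurf X) (μ : Measure X) :
    Prop :=
  IsProbabilityMeasure μ ∧ μ (S.sing : Set X) = 0 ∧ ∃ a : ℝ, 0 < a ∧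
    ∀ e ∈ S.atlas, ∀ A ⊆ e.source, MeasurableSet A → μ A = ENNReal.ofReal a * volume (e '' A)

/-- Every square integrable eigenfunction of the flow `F` is constant. -/
def WeakMixing [MeasurableSpace X] (μ : Measure X) (F : ℝ → X → X) : Prop :=
  ∀ (a : ℝ) (f : X → ℂ), MemLp f 2 μ →
    (∀ t : ℝ, (fun x => f (F t x)) =ᵐ[μ] fun x => Complex.exp (a * t * Complex.I) * f x) →
    ∃ c : ℂ, f =ᵐ[μ] fun _ => c

/-- The circles `θ ↦ c θ t` equidistribute along a set of times of density one. -/
def Illum [TopologicalSpace X] [MeasurableSpace X] (μ : Measure X) (c : ℝ → ℝ → X) : Prop :=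
  ∃ G : Set ℝ, MeasurableSet G ∧
    liminf (fun N : ℝ => (volume (G ∩ Icc (-N) N)).toReal / (2 * N)) atTop = 1 ∧
    ∀ h : C(X, ℝ), Tendsto (fun t => ∫ θ in (0 : ℝ)..1, h (c θ t)) (atTop ⊓ 𝓟 G)
      (𝓝 (∫ x, h x ∂μ))

/-- `c` is a measurable choice, for almost every direction `θ`, of an infinite straight unit speed
ray `t ↦ c θ t` leaving the point `p` in direction `2 π θ`. -/
def TransSurf.IsRays [TopologicalSpace X] [MeasurableSpace X] (S : TransSurf X) (p : X)
    (c : ℝ → ℝ → X) : Prop :=
  Measurable (Function.uncurry c) ∧ ∀ᵐ θ ∂(volume.restrict (Ico (0 : ℝ) 1)),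
    Tendsto (c θ) (𝓝[>] 0) (𝓝 p) ∧ S.Straight (dir θ) (c θ) (Ioi 0)

end Pool.Agent.MP_b29402_an
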